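import Pool.Agent.helper12.TZ.Spec

set_option autoImplicit false

/-!
# Project tz (MP_baa4d7_al), row TOR: the torus sum
-/

namespace Pool.Agent.TZ

open Pool.Agent.helper58.DC Pool.Agent.DI Pool.Agent.GR Pool.Agent.OB

theorem TOR_card {G : Type} [Group G] [Finite G] (g : G) :
    Nat.card (Subgroup.centralizer ({g} : Set G)) * (conjugatesOf g).ncard = Nat.card G := by
  classical
  have h1 : conjugatesOf g = MulAction.orbit (ConjAct G) g := by
    ext x
    rw [ConjAct.mem_orbit_conjAct]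
    exact ⟨fun h => (show IsConj g x from h).symm, fun h => (show IsConj g x from h.symm)⟩
  rw [h1, ← Nat.card_coe_set_eq,
    Nat.card_congr (MulAction.orbitEquivQuotientStabilizer (ConjAct G) g)]
  have h2 : Nat.card (MulAction.stabilizer (ConjAct G) g) =
      Nat.card (Subgroup.centralizer ({g} : Set G)) := by
    rw [Subgroup.nat_card_centralizer_nat_card_stabilizer]
  have h3 : (MulAction.stabilizer (ConjAct G) g).index *
      Nat.card (MulAction.stabilizer (ConjAct G) g) = Nat.card G := by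
    rw [Subgroup.index_mul_card]
    rfl
  rw [← h3, h2, mul_comm]
  rfl

/-- the summand -/
noncomputable def TOR_F {G : Type} [Group G] (p : ℕ) (ζ : G → ℂ) (s : G) (x : G × G) : ℂ :=
  ζ (x.1 * x.2 * x.1⁻¹ * x.2⁻¹ * s)⁻¹ * (W p (Subgroup.closure {x.1, x.2, s}) : ℂ)

theorem TOR_conj (hWCJ : WCJ_stmt) {G : Type} [Group G] [Finite G] (p : ℕ) [Fact p.Prime]
    (ζ : G → ℂ) (hζ : ∀ u v, ζ (v * u * v⁻¹) = ζ u) (h s : G) (x : G × G) :
    TOR_F p ζ (h * s * h⁻¹) (h * x.1 * h⁻¹, h * x.2 * h⁻¹) = TOR_F p ζ s x := by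
  unfold TOR_F
  have e1 : (h * x.1 * h⁻¹ * (h * x.2 * h⁻¹) * (h * x.1 * h⁻¹)⁻¹ * (h * x.2 * h⁻¹)⁻¹ *
      (h * s * h⁻¹))⁻¹ = h * (x.1 * x.2 * x.1⁻¹ * x.2⁻¹ * s)⁻¹ * h⁻¹ := by group
  have e2 : Subgroup.closure ({h * x.1 * h⁻¹, h * x.2 * h⁻¹, h * s * h⁻¹} : Set G) =
      cj h (Subgroup.closure {x.1, x.2, s}) := by
    unfold cj
    rw [MonoidHom.map_closure, Set.image_insert_eq, Set.image_insert_eq, Set.image_singleton]
    rfl
  simp only
  rw [e1, hζ, e2, (hWCJ G p).1]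

theorem TOR (hWCJ : WCJ_stmt) : TOR_stmt := by
  intro G _ _ p _ g ζ hζ
  classical
  let _ : Fintype G := Fintype.ofFinite G
  have h1 : To p (ind g) ζ 0 = ∑ s : G, ind g s * ∑ x : G × G, TOR_F p ζ s x := by
    unfold To
    rw [finsum_eq_sum_of_fintype, Fintype.sum_prod_type]
    have e : ∀ a : G × G, ∑ b : (Fin 0 → G) × G,
        (ind g (a, b).2.2 * ζ ((a, b).1.1 * (a, b).1.2 * (a, b).1.1⁻¹ * (a, b).1.2⁻¹ *
          qq (a, b).2.1 * (a, b).2.2)⁻¹ * (∏ j, tp p ((a, b).2.1 j)) *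
          (W p (Subgroup.closure ({(a, b).1.1, (a, b).1.2, (a, b).2.2} ∪
            Set.range (a, b).2.1)) : ℂ)) = ∑ s : G, ind g s * TOR_F p ζ s a := by
      intro a
      rw [Fintype.sum_prod_type, Fintype.sum_unique]
      apply Finset.sum_congr rfl
      intro s _
      simp only [qq, TOR_F, List.ofFn_zero, List.prod_nil, mul_one, Finset.univ_eq_empty,
        Finset.prod_empty, Set.range_eq_empty, Set.union_empty, mul_assoc]
    rw [Finset.sum_congr rfl (fun a _ => e a), Finset.sum_comm]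
    apply Finset.sum_congr rfl
    intro s _
    rw [Finset.mul_sum]
  have h2 : ∀ h s : G, ∑ x : G × G, TOR_F p ζ (h * s * h⁻¹) x = ∑ x : G × G, TOR_F p ζ s x := by
    intro h s
    rw [← Equiv.sum_comp (Equiv.prodCongr (MulAut.conj h).toEquiv (MulAut.conj h).toEquiv)
      (fun x => TOR_F p ζ (h * s * h⁻¹) x)]
    apply Finset.sum_congr rfl
    intro x _
    exact TOR_conj hWCJ p ζ hζ h s x
  have h3 : ∀ s : G, ind g s * ∑ x : G × G, TOR_F p ζ s x =
      ind g s * ∑ x : G × G, TOR_F p ζ g x := by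
    intro s
    unfold ind
    by_cases hs : s ∈ conjugatesOf g
    · obtain ⟨c, hc⟩ := isConj_iff.1 (show IsConj g s from hs)
      rw [← hc, h2]
    · rw [if_neg hs, zero_mul, zero_mul]
  have h4 : ∑ s : G, ind g s = ((conjugatesOf g).ncard : ℂ) := by
    unfold ind
    rw [Finset.sum_boole, Set.ncard_eq_toFinset_card' (conjugatesOf g)]
    congr 2
    ext s
    simp
  rw [h1, Finset.sum_congr rfl (fun s _ => h3 s), ← Finset.sum_mul, h4, ← mul_assoc,
    finsum_eq_sum_of_fintype, ← TOR_card g]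
  push_cast
  rfl

end Pool.Agent.TZ
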